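import Mathlib

/-!
# Cross-intersecting pairs of projective subspaces

For every field `F`, every `n` and every sequence `(U i, V i)`, `i < m`, of pairs of nonzero linear
subspaces of `F ^ (n + 1)` with `U i ⊓ V i = ⊥` and `U i ⊓ V j ≠ ⊥` for `i < j` we have
`m ≤ 2 ^ (n + 1) - 2`.

Attach to a subspace the exterior product of a basis of it, an element of the exterior algebra.  The
elements `u i` attached to the `U i` are linearly independent (multiply a relation by `v j`, with `j`
the largest index of a nonzero coefficient), and they lie in the sum of the exterior powers of degree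
`1, ..., n`, which has dimension `2 ^ (n + 1) - 2`.
-/

namespace Pool.Agent.Results.MP_59f694_co.ProjectiveBound

open Module Submodule

universe u

variable {F : Type u} [Field F] {E : Type*} [AddCommGroup E] [Module F E]

/-- The exterior product of linearly independent vectors does not vanish. -/
lemma iotaMulti_ne_zero {k : ℕ} (v : Fin k → E) (hv : LinearIndependent F v) :
    ExteriorAlgebra.ιMulti F k v ≠ 0 := by
  have h := exteriorPower.ιMulti_family_linearIndependent_field (n := k) hv
  have h2 := h.ne_zero (Set.powersetCard.ofFinEmbEquiv (RelEmbedding.refl _))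
  intro h0
  apply h2
  apply Subtype.ext
  simp only [exteriorPower.ιMulti_family, exteriorPower.ιMulti_apply_coe, ZeroMemClass.coe_zero]
  rw [Equiv.symm_apply_apply]
  exact h0

/-- The exterior product of a family vanishes iff the family is linearly dependent. -/
lemma iotaMulti_eq_zero {k : ℕ} (v : Fin k → E) (hv : ¬ LinearIndependent F v) :
    ExteriorAlgebra.ιMulti F k v = 0 :=
  AlternatingMap.map_linearDependent _ _ hv

/-- The exterior product of (the chosen basis of) a subspace. -/
noncomputable def ext (U : Submodule F E) [FiniteDimensional F E] : ExteriorAlgebra F E :=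
  ExteriorAlgebra.ιMulti F (finrank F U) (fun i => (finBasis F U i : E))

lemma span_basis (U : Submodule F E) [FiniteDimensional F E] :
    span F (Set.range (fun i => (finBasis F U i : E))) = U := by
  have h := (finBasis F U).span_eq
  have h2 : (span F (Set.range (finBasis F U))).map U.subtype = U := by
    rw [h, Submodule.map_top, Submodule.range_subtype]
  rw [Submodule.map_span, ← Set.range_comp] at h2
  exact h2

lemma append_li (U V : Submodule F E) [FiniteDimensional F E] :
    LinearIndependent F (Fin.append (fun i => (finBasis F U i : E))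
      (fun i => (finBasis F V i : E))) ↔ U ⊓ V = ⊥ := by
  rw [← linearIndependent_equiv finSumFinEquiv, linearIndependent_sum]
  have e1 : (Fin.append (fun i => (finBasis F U i : E))
      (fun i => (finBasis F V i : E)) ∘ finSumFinEquiv) ∘ Sum.inl
        = fun i => (finBasis F U i : E) := by
    funext i; simp
  have e2 : (Fin.append (fun i => (finBasis F U i : E))
      (fun i => (finBasis F V i : E)) ∘ finSumFinEquiv) ∘ Sum.inr
        = fun i => (finBasis F V i : E) := by
    funext i; simp
  rw [e1, e2, span_basis, span_basis, disjoint_iff]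
  constructor
  · rintro ⟨_, _, h⟩
    exact h
  · intro h
    refine ⟨?_, ?_, h⟩
    · exact (finBasis F U).linearIndependent.map' U.subtype (Submodule.ker_subtype U)
    · exact (finBasis F V).linearIndependent.map' V.subtype (Submodule.ker_subtype V)

lemma ext_mul_ne_zero (U V : Submodule F E) [FiniteDimensional F E] (h : U ⊓ V = ⊥) :
    ext U * ext V ≠ 0 := by
  unfold ext
  rw [ExteriorAlgebra.ιMulti_mul_ιMulti]
  exact iotaMulti_ne_zero _ ((append_li U V).2 h)

lemma ext_mul_eq_zero (U V : Submodule F E) [FiniteDimensional F E] (h : U ⊓ V ≠ ⊥) :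
    ext U * ext V = 0 := by
  unfold ext
  rw [ExteriorAlgebra.ιMulti_mul_ιMulti]
  exact iotaMulti_eq_zero _ (fun h2 => h ((append_li U V).1 h2))

/-- The span of the basis elements of the exterior algebra of degree neither `0` nor top. -/
noncomputable def mid {ι : Type*} [LinearOrder ι] [Fintype ι] (b : Basis ι F E) :
    Submodule F (ExteriorAlgebra F E) :=
  span F (Set.range fun s : {s : Finset ι // s ≠ ∅ ∧ s ≠ Finset.univ} => b.ExteriorAlgebra s.1)

lemma power_le_mid {ι : Type*} [LinearOrder ι] [Fintype ι] (b : Basis ι F E) (k : ℕ)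
    (h0 : 0 < k) (h1 : k < Fintype.card ι) : (⋀[F]^k E) ≤ mid b := by
  intro x hx
  have h := (b.exteriorPower k).mem_span ⟨x, hx⟩
  have h2 : (x : ExteriorAlgebra F E) ∈
      (span F (Set.range (b.exteriorPower k))).map (⋀[F]^k E).subtype :=
    ⟨⟨x, hx⟩, h, rfl⟩
  rw [Submodule.map_span, ← Set.range_comp] at h2
  refine (Submodule.span_le.2 ?_) h2
  rintro _ ⟨s, rfl⟩
  have h3 : ((⋀[F]^k E).subtype ∘ (b.exteriorPower k)) s = b.ExteriorAlgebra s.1 :=
    (ExteriorAlgebra.basis_eq_coe_basis b s).symm
  rw [h3]
  apply Submodule.subset_span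
  refine ⟨⟨s.1, ?_, ?_⟩, rfl⟩
  · intro h4
    have h5 : s.1.card = k := s.2
    rw [h4] at h5
    simp at h5
    omega
  · intro h4
    have h5 : s.1.card = k := s.2
    rw [h4, Finset.card_univ] at h5
    omega

lemma finrank_mid {ι : Type*} [LinearOrder ι] [Fintype ι] (b : Basis ι F E)
    (hc : 0 < Fintype.card ι) :
    finrank F (mid b) ≤ 2 ^ (Fintype.card ι) - 2 := by
  classical
  have h := finrank_range_le_card (R := F)
    (fun s : {s : Finset ι // s ≠ ∅ ∧ s ≠ Finset.univ} => b.ExteriorAlgebra s.1)
  refine h.trans ?_
  rw [Fintype.card_subtype]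
  have e : (Finset.univ.filter fun s : Finset ι => s ≠ ∅ ∧ s ≠ Finset.univ)
      = (Finset.univ \ {∅, Finset.univ}) := by
    ext s; simp
  rw [e, Finset.card_sdiff_of_subset (Finset.subset_univ _), Finset.card_univ, Fintype.card_finset,
    Finset.card_pair]
  intro h4
  have : (Finset.univ : Finset ι).card = 0 := by rw [← h4]; rfl
  rw [Finset.card_univ] at this
  omega

instance {ι : Type*} [LinearOrder ι] [Fintype ι] (b : Basis ι F E) :
    FiniteDimensional F (mid b) :=
  FiniteDimensional.span_of_finite F (Set.finite_range _)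

/-- The statement for an arbitrary finite-dimensional space. -/
theorem main [FiniteDimensional F E] (m : ℕ) (U V : Fin m → Submodule F E)
    (hE : 0 < finrank F E)
    (hU : ∀ i, U i ≠ ⊥) (hV : ∀ i, V i ≠ ⊥) (hd : ∀ i, U i ⊓ V i = ⊥)
    (hc : ∀ i j, i < j → U i ⊓ V j ≠ ⊥) : m ≤ 2 ^ (finrank F E) - 2 := by
  classical
  let b := finBasis F E
  have hmem : ∀ i, ext (U i) ∈ mid b := by
    intro i
    refine power_le_mid b (finrank F (U i)) ?_ ?_ ?_
    · exact Nat.pos_of_ne_zero (fun h => hU i (Submodule.finrank_eq_zero.1 h))
    · rw [Fintype.card_fin]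
      apply Submodule.finrank_lt
      intro h
      apply hV i
      have := hd i
      rw [h, top_inf_eq] at this
      exact this
    · exact ExteriorAlgebra.ιMulti_range F _ ⟨_, rfl⟩
  have hli : LinearIndependent F (fun i => ext (U i)) := by
    rw [Fintype.linearIndependent_iff]
    intro c hsum
    by_contra hne
    push Not at hne
    let S : Finset (Fin m) := Finset.univ.filter fun i => c i ≠ 0
    have hS : S.Nonempty := by
      obtain ⟨i, hi⟩ := hne
      exact ⟨i, by simp [S, hi]⟩
    let j := S.max' hS
    have hj : c j ≠ 0 := by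
      have := S.max'_mem hS
      simpa [S] using this
    have h2 : (∑ i, c i • ext (U i)) * ext (V j) = 0 := by rw [hsum, zero_mul]
    rw [Finset.sum_mul, Finset.sum_eq_single j] at h2
    · rw [smul_mul_assoc, smul_eq_zero] at h2
      rcases h2 with h2 | h2
      · exact hj h2
      · exact ext_mul_ne_zero _ _ (hd j) h2
    · intro i _ hij
      rcases lt_or_gt_of_ne hij with h3 | h3
      · rw [smul_mul_assoc, ext_mul_eq_zero _ _ (hc i j h3), smul_zero]
      · have : c i = 0 := by
          by_contra h4
          have h5 : i ≤ j := S.le_max' i (by simp [S, h4])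
          exact absurd h3 (not_lt.2 h5)
        rw [this, zero_smul, zero_mul]
    · intro h; exact absurd (Finset.mem_univ j) h
  have hli2 : LinearIndependent F (fun i => (⟨ext (U i), hmem i⟩ : mid b)) := by
    apply LinearIndependent.of_comp (mid b).subtype
    exact hli
  have h3 := hli2.fintype_card_le_finrank
  rw [Fintype.card_fin] at h3
  refine h3.trans ?_
  have h4 := finrank_mid b (by rw [Fintype.card_fin]; exact hE)
  rwa [Fintype.card_fin] at h4

/-- **Q1 of MP_59f694_co is true.**  For every field `F`, every `n ≥ 0` and every sequence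
`(U i, V i)`, `i < m`, of pairs of nonzero subspaces of `F ^ (n + 1)` with `U i ∩ V i = 0` for all
`i` and `U i ∩ V j ≠ 0` for `i < j`, we have `m ≤ 2 ^ (n + 1) - 2`. -/
theorem result : ∀ (F : Type u) [Field F] (n m : ℕ)
    (U V : Fin m → Submodule F (Fin (n + 1) → F)),
    (∀ i, U i ≠ ⊥) → (∀ i, V i ≠ ⊥) → (∀ i, U i ⊓ V i = ⊥) →
    (∀ i j, i < j → U i ⊓ V j ≠ ⊥) → m ≤ 2 ^ (n + 1) - 2 := by
  intro F _ n m U V hU hV hd hc
  have h := main m U V (by simp) hU hV hd hc
  simpa using h

end Pool.Agent.Results.MP_59f694_co.ProjectiveBound
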